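import Mathlib

set_option autoImplicit false

namespace Pool.Agent.H.MP_ca7272_al
open Polynomial Matrix Finset

variable {n : ℕ}

lemma dimQ (H : Matrix (Fin n) (Fin n) ℝ[X]) (h : H.det ≠ 0) :
    Module.Finite ℝ ((Fin n → ℝ[X]) ⧸ LinearMap.range H.mulVecLin) ∧
    Module.finrank ℝ ((Fin n → ℝ[X]) ⧸ LinearMap.range H.mulVecLin) = H.det.natDegree := by
  classical
  set N := LinearMap.range H.mulVecLin
  have inj : Function.Injective H.mulVecLin := fun v w e => sub_eq_zero.1 <|
    Matrix.eq_zero_of_mulVec_eq_zero h (by rw [mulVec_sub]; exact sub_eq_zero.2 e)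
  let e : (Fin n → ℝ[X]) ≃ₗ[ℝ[X]] N := LinearEquiv.ofInjective _ inj
  let b := Pi.basisFun ℝ[X] (Fin n)
  have hr : Module.finrank ℝ[X] N = Module.finrank ℝ[X] (Fin n → ℝ[X]) := e.symm.finrank_eq
  let a := Submodule.smithNormalFormCoeffs b hr
  let b' := Submodule.smithNormalFormTopBasis b hr
  let ab := Submodule.smithNormalFormBotBasis b hr
  have ab_eq := Submodule.smithNormalFormBotBasis_def b hr
  have a0 : ∀ i, a i ≠ 0 := Submodule.smithNormalFormCoeffs_ne_zero b hr
  let e' := b'.equiv ab (Equiv.refl _)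
  have d1 : LinearMap.det (N.subtype ∘ₗ (e' : _ →ₗ[ℝ[X]] N)) = ∏ i, a i := by
    rw [← LinearMap.det_toMatrix b', ← Matrix.det_diagonal]
    congr 1
    ext i j : 1
    have : (N.subtype ∘ₗ (e' : _ →ₗ[ℝ[X]] N)) (b' j) = a j • b' j := by
      simp only [e', LinearMap.comp_apply, LinearEquiv.coe_coe, b'.equiv_apply, Equiv.refl_apply]
      exact ab_eq j
    rw [LinearMap.toMatrix_apply, this, map_smul, Module.Basis.repr_self, Finsupp.smul_single,
      smul_eq_mul, mul_one]
    by_cases h : i = j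
    · rw [h, Matrix.diagonal_apply_eq, Finsupp.single_eq_same]
    · rw [Matrix.diagonal_apply_ne _ h, Finsupp.single_eq_of_ne h]
  have d2 : LinearMap.det (N.subtype ∘ₗ (e : _ →ₗ[ℝ[X]] N)) = H.det := by
    rw [← LinearMap.det_toLin']
    rfl
  have d3 := LinearMap.associated_det_comp_equiv N.subtype e e'
  rw [d1, d2] at d3
  have fin : ∀ i, Module.Finite ℝ (ℝ[X] ⧸ Ideal.span {a i}) := fun i =>
    PowerBasis.finite <| AdjoinRoot.powerBasis (a0 i)
  refine ⟨Module.Finite.equiv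
    ((Submodule.quotientEquivPiSpan N b hr).restrictScalars ℝ).symm, ?_⟩
  rw [natDegree_eq_of_degree_eq (degree_eq_degree_of_associated d3),
    natDegree_prod _ _ fun i _ => a0 i, Submodule.finrank_quotient_eq_sum ℝ b hr]
  exact sum_congr rfl fun i _ => finrank_quotient_span_eq_natDegree

lemma natDegree_det_le (M : Matrix (Fin n) (Fin n) ℝ[X]) (a b : Fin n → ℕ)
    (h : ∀ i j, (M i j).natDegree ≤ a i + b j) : M.det.natDegree ≤ ∑ i, a i + ∑ j, b j := by
  rw [det_apply]
  refine natDegree_sum_le_of_forall_le _ _ fun s _ => ?_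
  refine (natDegree_smul_le _ _).trans ((natDegree_prod_le _ _).trans ?_)
  rw [← Equiv.sum_comp s a, ← sum_add_distrib]
  exact sum_le_sum fun i _ => h _ _

/-- The reflection `X ↦ -X`. -/
noncomputable abbrev sg : ℝ[X] →+* ℝ[X] := compRingHom (-X)

lemma sg_sg (f : ℝ[X]) : sg (sg f) = f := comp_neg_X_comp_neg_X f

lemma deg_sg (f : ℝ[X]) : (sg f).natDegree = f.natDegree :=
  natDegree_eq_of_degree_eq degree_comp_neg_X

lemma sg_C (c : ℝ) : sg (C c) = C c := C_comp

lemma sg_X : sg X = -X := X_comp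

/-- There are `n` independent vectors `u` of weighted degree `≤ 0` with `D u` in the range. -/
lemma exists_u (d : Fin n → ℕ) (H : Matrix (Fin n) (Fin n) ℝ[X]) (he : H.map sg = H) (D : ℝ[X])
    (c : ℝ) (hc : c ≠ 0) (hD : H.det = C c * (D * sg D)) (co : IsCoprime D (sg D))
    (dD : D.natDegree = ∑ i, d i) :
    ∃ u : Fin n → Fin n → ℝ[X], LinearIndependent ℝ u ∧ (∀ k i, (u k i).natDegree ≤ d i) ∧
      ∀ k, ∃ w, H *ᵥ w = D • u k := by
  classical
  have D0 : D ≠ 0 := by
    rintro rfl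
    rw [map_zero] at co
    exact not_isCoprime_zero_zero co
  have S0 : sg D ≠ 0 := fun e => D0 (by rw [← sg_sg D, e, map_zero])
  have h0 : H.det ≠ 0 := by rw [hD]; simp [hc, D0, S0]
  obtain ⟨fin, dim⟩ := dimQ H h0
  set N := LinearMap.range H.mulVecLin
  have dd : H.det.natDegree = 2 * ∑ i, d i := by
    rw [hD, natDegree_C_mul hc, natDegree_mul D0 S0, deg_sg, dD, two_mul]
  have kill : ∀ u, (D * sg D) • u ∈ N := fun u =>
    ⟨C c⁻¹ • (H.adjugate *ᵥ u), by
      rw [mulVecLin_apply, mulVec_smul, mulVec_mulVec, mul_adjugate, smul_mulVec, one_mulVec,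
        smul_smul, hD, ← mul_assoc, ← C_mul, inv_mul_cancel₀ hc, C_1, one_mul]⟩
  let K : ℝ[X] → Submodule ℝ (Fin n → ℝ[X]) := fun E =>
    (N.comap (LinearMap.lsmul ℝ[X] _ E)).restrictScalars ℝ
  have mK : ∀ E u, u ∈ K E ↔ E • u ∈ N := fun _ _ => Iff.rfl
  have : Module.Finite ℝ ((Fin n → ℝ[X]) ⧸ N.restrictScalars ℝ) :=
    Module.Finite.equiv (Submodule.Quotient.restrictScalarsEquiv ℝ N).symm
  let f := (N.restrictScalars ℝ).liftQ (((K D).mkQ).prod (K (sg D)).mkQ) fun u hu =>
    Prod.ext ((Submodule.Quotient.mk_eq_zero _).2 ((mK _ _).2 (N.smul_mem _ hu)))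
      ((Submodule.Quotient.mk_eq_zero _).2 ((mK _ _).2 (N.smul_mem _ hu)))
  have fs : Function.Surjective f := by
    rintro ⟨x, y⟩
    obtain ⟨x, rfl⟩ := Submodule.Quotient.mk_surjective _ x
    obtain ⟨y, rfl⟩ := Submodule.Quotient.mk_surjective _ y
    obtain ⟨a, b, e⟩ := co
    refine ⟨Submodule.Quotient.mk ((a * D) • x + (b * sg D) • y), Prod.ext ?_ ?_⟩
    · refine (Submodule.Quotient.eq _).2 ((mK _ _).2 ?_)
      convert kill (b • (y - x)) using 1
      have : a * D = 1 - b * sg D := by rw [← e]; ring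
      rw [this]
      ext i : 1
      simp
      ring
    · refine (Submodule.Quotient.eq _).2 ((mK _ _).2 ?_)
      convert kill (a • (x - y)) using 1
      have : b * sg D = 1 - a * D := by rw [← e]; ring
      rw [this]
      ext i : 1
      simp
      ring
  have fp := Module.Finite.of_surjective f fs
  have f1 := Module.Finite.of_surjective (LinearMap.fst ℝ _ _) Prod.fst_surjective (hM := fp)
  have f2 := Module.Finite.of_surjective (LinearMap.snd ℝ _ _) Prod.snd_surjective (hM := fp)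
  have l1 := LinearMap.finrank_le_finrank_of_surjective fs
  rw [Module.finrank_prod, (Submodule.Quotient.restrictScalarsEquiv ℝ N).finrank_eq, dim, dd] at l1
  let s : (Fin n → ℝ[X]) →ₗ[ℝ] (Fin n → ℝ[X]) :=
    (aeval (-X) : ℝ[X] →ₐ[ℝ] ℝ[X]).toLinearMap.compLeft (Fin n)
  have hs : ∀ u, s u = sg ∘ u := fun u => funext fun i => (comp_eq_aeval ..).symm
  let g := (K (sg D)).liftQ ((K D).mkQ ∘ₗ s) fun u hu => by
    obtain ⟨w, hw⟩ := (mK _ _).1 hu
    simp only [LinearMap.mem_ker, LinearMap.comp_apply, Submodule.mkQ_apply,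
      Submodule.Quotient.mk_eq_zero, mK, hs]
    refine ⟨sg ∘ w, funext fun i => ?_⟩
    have := congrArg sg (congrFun hw i)
    rw [mulVecLin_apply, RingHom.map_mulVec, he] at this
    rw [Pi.smul_apply, smul_eq_mul, map_mul, sg_sg] at this
    exact this
  have gs : Function.Surjective g := fun x => by
    obtain ⟨x, rfl⟩ := Submodule.Quotient.mk_surjective _ x
    refine ⟨Submodule.Quotient.mk (sg ∘ x), ?_⟩
    simp only [g, Submodule.liftQ_apply, LinearMap.comp_apply, hs, Submodule.mkQ_apply]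
    congr 1
    ext i : 1
    exact sg_sg _
  have l2 := LinearMap.finrank_le_finrank_of_surjective gs
  let ι : (∀ i, degreeLT ℝ (d i + 1)) →ₗ[ℝ] (Fin n → ℝ[X]) :=
    LinearMap.pi fun i => (degreeLT ℝ (d i + 1)).subtype ∘ₗ LinearMap.proj i
  have ιi : LinearMap.ker ι = ⊥ := LinearMap.ker_eq_bot.2 fun x y e =>
    funext fun i => Subtype.ext (congrFun e i)
  have fd : ∀ i, Module.Finite ℝ (degreeLT ℝ (d i + 1)) := fun i =>
    Module.Finite.equiv (degreeLTEquiv ℝ _).symm
  have l3 := ((K D).mkQ ∘ₗ ι).finrank_range_add_finrank_ker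
  have l4 := (LinearMap.range ((K D).mkQ ∘ₗ ι)).finrank_le
  rw [Module.finrank_pi_fintype] at l3
  simp only [(degreeLTEquiv ℝ _).finrank_eq, Module.finrank_fin_fun, sum_add_distrib, sum_const,
    card_univ, Fintype.card_fin, smul_eq_mul, mul_one] at l3
  obtain ⟨v, hv⟩ := exists_linearIndependent_of_le_finrank (R := ℝ)
    (M := LinearMap.ker ((K D).mkQ ∘ₗ ι)) (n := n) (by omega)
  refine ⟨fun k => ι (v k), (hv.map' _ (Submodule.ker_subtype _)).map' ι ιi, fun k i => ?_,
    fun k => ?_⟩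
  · exact natDegree_le_iff_degree_le.2 (Order.le_of_lt_succ (mem_degreeLT.1 ((v k).1 i).2))
  · exact (mK _ _).1 ((Submodule.Quotient.mk_eq_zero _).1 (v k).2)

end Pool.Agent.H.MP_ca7272_al
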