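import Pool.Agent.H.MP_ca7272_al.A

set_option autoImplicit false

namespace Pool.Agent.H.MP_ca7272_al
open Polynomial Matrix Finset

variable {n : ℕ}

lemma sg_coeff (f : ℝ[X]) (k : ℕ) : (sg f).coeff k = f.coeff k * (-1) ^ k := by
  rw [← comp_C_mul_X_coeff]
  simp

lemma charpoly_eq_of_mul {R : Type} [CommRing R] [IsDomain R] {A B W : Matrix (Fin n) (Fin n) R}
    (h : A * W = W * B) (hW : W.det ≠ 0) : A.charpoly = B.charpoly := by
  have e : charmatrix A * W.map C = W.map C * charmatrix B := by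
    simp only [charmatrix, Matrix.sub_mul, Matrix.mul_sub, RingHom.mapMatrix_apply,
      ← Matrix.map_mul, h]
    rw [(scalar_commute (X : R[X]) (fun _ => Commute.all _ _) _).eq]
  have := congrArg det e
  rw [det_mul, det_mul, mul_comm] at this
  refine mul_left_cancel₀ ?_ this
  rw [← RingHom.mapMatrix_apply, ← RingHom.map_det]
  exact C_ne_zero.2 hW

/-- The space of vectors of bounded weighted degree whose image is divisible by `D`. -/
def L0 (e : Fin n → ℕ) (H : Matrix (Fin n) (Fin n) ℝ[X]) (D : ℝ[X]) :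
    Submodule ℝ (Fin n → ℝ[X]) where
  carrier := {w | (∀ j, (w j).natDegree ≤ e j) ∧ ∀ i, D ∣ (H *ᵥ w) i}
  add_mem' := fun {a b} ha hb => ⟨fun j => natDegree_add_le_of_degree_le (ha.1 j) (hb.1 j),
    fun i => by rw [mulVec_add]; exact dvd_add (ha.2 i) (hb.2 i)⟩
  zero_mem' := ⟨fun j => by simp, fun i => by simp⟩
  smul_mem' := fun c a ha => ⟨fun j => (natDegree_smul_le _ _).trans (ha.1 j),
    fun i => by
      rw [mulVec_smul, Pi.smul_apply, smul_eq_C_mul]
      exact (ha.2 i).mul_left _⟩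

lemma key (d : Fin n → ℕ) (H : Matrix (Fin n) (Fin n) ℝ[X]) (hs : Hᵀ = H) (he : H.map sg = H)
    (dH : ∀ i j, (H i j).natDegree ≤ d i + d j) (D : ℝ[X]) (D0 : D ≠ 0)
    (co : IsCoprime D (sg D)) (dD : D.natDegree = ∑ i, d i) {w w' : Fin n → ℝ[X]}
    (hw : w ∈ L0 (fun j => ∑ i, d i - d j) H D) (hw' : w' ∈ L0 (fun j => ∑ i, d i - d j) H D) :
    ∃ g : ℝ, (sg ∘ w') ⬝ᵥ H *ᵥ w = D * sg D * C g ∧
      ((∀ j, (w' j).coeff (∑ i, d i - d j) = 0) → g = 0) := by
  have S0 : sg D ≠ 0 := fun e => D0 (by rw [← sg_sg D, e, map_zero])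
  have dN : ∀ j, d j ≤ ∑ i, d i := fun j => single_le_sum (fun _ _ => Nat.zero_le _) (mem_univ j)
  choose u hu using hw.2
  choose u' hu' using hw'.2
  have du : ∀ i, (u i).natDegree ≤ d i := fun i => by
    by_cases h : u i = 0
    · simp [h]
    have : ((H *ᵥ w) i).natDegree ≤ d i + ∑ i, d i := by
      rw [mulVec, dotProduct]
      refine natDegree_sum_le_of_forall_le _ _ fun j _ => natDegree_mul_le.trans ?_
      have := dH i j; have := hw.1 j; have := dN j; dsimp only at *; omega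
    rw [hu, natDegree_mul D0 h] at this
    omega
  have b1 : (sg ∘ w') ⬝ᵥ H *ᵥ w = D * (sg ∘ w') ⬝ᵥ u := by
    simp only [dotProduct, hu, mul_sum]
    exact sum_congr rfl fun _ _ => by ring
  have b2 : (sg ∘ w') ⬝ᵥ H *ᵥ w = sg D * w ⬝ᵥ (sg ∘ u') := by
    rw [dotProduct_mulVec, ← mulVec_transpose, hs, dotProduct_comm]
    simp only [dotProduct, mul_sum]
    refine sum_congr rfl fun i _ => ?_
    have := congrArg sg (hu' i)
    rw [RingHom.map_mulVec, he, map_mul] at this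
    rw [this, Function.comp_apply]
    ring
  obtain ⟨g, hg⟩ : sg D ∣ (sg ∘ w') ⬝ᵥ u := co.symm.dvd_of_dvd_mul_left ⟨_, b1.symm.trans b2⟩
  have t : ∀ j, (sg (w' j)).natDegree ≤ ∑ i, d i - d j := fun j => (deg_sg _).le.trans (hw'.1 j)
  have da : ((sg ∘ w') ⬝ᵥ u).natDegree ≤ ∑ i, d i := by
    rw [dotProduct]
    refine natDegree_sum_le_of_forall_le _ _ fun j _ => natDegree_mul_le.trans ?_
    have := t j; have := du j; have := dN j; simp only [Function.comp_apply]; omega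
  have dg : g.natDegree = 0 := by
    by_cases h : g = 0
    · simp [h]
    rw [hg, natDegree_mul S0 h, deg_sg] at da
    omega
  obtain ⟨g, rfl⟩ := natDegree_eq_zero.1 dg
  refine ⟨g, by rw [b1, hg, mul_assoc], fun h => ?_⟩
  have := congrArg (coeff · (∑ i, d i)) hg
  simp only [dotProduct, finsetSum_coeff, coeff_mul_C] at this
  rw [sum_eq_zero, ← dD, ← deg_sg, coeff_natDegree] at this
  · exact (mul_eq_zero.1 this.symm).resolve_left (leadingCoeff_ne_zero.2 S0)
  intro j _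
  rw [← Nat.sub_add_cancel (dN j), Function.comp_apply,
    coeff_mul_add_eq_of_natDegree_le (t j) (du j), sg_coeff, h, zero_mul, zero_mul]

/-- A basis `W` of the space `L0` which `Cm` maps into `W (M0 + X M1)`. -/
lemma exists_W (d : Fin n → ℕ) (H Cm : Matrix (Fin n) (Fin n) ℝ[X]) (hs : Hᵀ = H)
    (he : H.map sg = H) (hc : H * Cm = Cmᵀ * H) (dH : ∀ i j, (H i j).natDegree ≤ d i + d j)
    (dC : ∀ i j, Cm i j = 0 ∨ (Cm i j).natDegree + d i ≤ d j + 1)
    (D : ℝ[X]) (c : ℝ) (c0 : c ≠ 0) (hD : H.det = C c * (D * sg D)) (co : IsCoprime D (sg D))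
    (dD : D.natDegree = ∑ i, d i) (pos : ∀ w : Fin n → ℝ[X], (sg ∘ w) ⬝ᵥ H *ᵥ w = 0 → w = 0) :
    ∃ (W : Matrix (Fin n) (Fin n) ℝ[X]) (G M0 M1 : Matrix (Fin n) (Fin n) ℝ),
      (W.map sg)ᵀ * H * W = (D * sg D) • G.map C ∧ Cm * W = W * (M0.map C + (X : ℝ[X]) • M1.map C) ∧
      ∀ v : Fin n → ℝ, W *ᵥ (C ∘ v) = 0 → v = 0 := by
  have D0 : D ≠ 0 := by
    rintro rfl
    rw [map_zero] at co
    exact not_isCoprime_zero_zero co
  have S0 : sg D ≠ 0 := fun e => D0 (by rw [← sg_sg D, e, map_zero])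
  have dN : ∀ j, d j ≤ ∑ i, d i := fun j => single_le_sum (fun _ _ => Nat.zero_le _) (mem_univ j)
  obtain ⟨u, li, du, hw⟩ := exists_u d H he D c c0 hD co dD
  choose w hw using hw
  set e : Fin n → ℕ := fun j => ∑ i, d i - d j with hE
  have wL : ∀ k, w k ∈ L0 e H D := fun k => by
    refine ⟨fun j => ?_, fun i => ⟨u k i, by rw [hw]; rfl⟩⟩
    by_cases h : w k j = 0
    · simp [h]
    have cr : H.det • w k = D • cramer H (u k) := by
      rw [← map_smul, ← hw, cramer_eq_adjugate_mulVec, mulVec_mulVec, adjugate_mul,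
        smul_mulVec, one_mulVec]
    have c1 := congrFun cr j
    rw [Pi.smul_apply, Pi.smul_apply, smul_eq_mul, smul_eq_mul, hD, cramer_apply,
      mul_left_comm, mul_assoc] at c1
    have c2 := mul_left_cancel₀ D0 c1
    have c3 := natDegree_det_le (H.updateCol j (u k)) d (Function.update d j 0) fun a b => by
      rw [updateCol_apply, Function.update_apply]
      split_ifs
      · exact du k a
      · exact dH a b
    rw [← c2, mul_assoc, natDegree_C_mul c0, natDegree_mul S0 h, deg_sg, dD,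
      sum_update_of_mem (mem_univ j)] at c3
    have := sum_eq_add_sum_sdiff_singleton_of_mem (mem_univ j) d
    simp only [hE]
    omega
  let W : Matrix (Fin n) (Fin n) ℝ[X] := (of w)ᵀ
  have Wv : ∀ v : Fin n → ℝ, W *ᵥ (C ∘ v) = ∑ k, v k • w k := fun v => by
    ext j : 1
    simp [W, mulVec, dotProduct, smul_eq_C_mul, mul_comm]
  have WL : ∀ v : Fin n → ℝ, W *ᵥ (C ∘ v) ∈ L0 e H D := fun v =>
    Wv v ▸ Submodule.sum_mem _ fun k _ => Submodule.smul_mem _ _ (wL k)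
  have Wi : ∀ v : Fin n → ℝ, W *ᵥ (C ∘ v) = 0 → v = 0 := fun v h => by
    have : H *ᵥ (W *ᵥ (C ∘ v)) = D • ∑ k, v k • u k := by
      simp only [Wv, mulVec_sum, mulVec_smul, hw, smul_sum, smul_comm D]
    rw [h, mulVec_zero, eq_comm, smul_eq_zero] at this
    exact funext (Fintype.linearIndependent_iff.1 li v (this.resolve_left D0))
  have z0 : ∀ z ∈ L0 e H D, (∀ j, (z j).coeff (e j) = 0) → z = 0 := fun z hz h => by
    obtain ⟨g, h1, h2⟩ := key d H hs he dH D D0 co dD hz hz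
    exact pos z (by rw [h1, h2 h, C_0, mul_zero])
  let Λ : Matrix (Fin n) (Fin n) ℝ := of fun j k => (w k j).coeff (e j)
  have Λv : ∀ (v : Fin n → ℝ) j, ((W *ᵥ (C ∘ v)) j).coeff (e j) = (Λ *ᵥ v) j := fun v j => by
    simp [W, Λ, mulVec, dotProduct]
  have Λ0 : Λ.det ≠ 0 := fun h => by
    obtain ⟨v, v0, hv⟩ := exists_mulVec_eq_zero_iff.2 h
    exact v0 (Wi v (z0 _ (WL v) fun j => by rw [Λv, hv]; rfl))
  have Λs : ∀ l, ∃ v, Λ *ᵥ v = l := fun l => ⟨Λ⁻¹ *ᵥ l, by
    rw [mulVec_mulVec, mul_nonsing_inv _ (Ne.isUnit Λ0), one_mulVec]⟩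
  have st : ∀ k, ∃ v0 v1 : Fin n → ℝ, Cm *ᵥ w k = W *ᵥ (C ∘ v0) + (X : ℝ[X]) • W *ᵥ (C ∘ v1) := by
    intro k
    obtain ⟨v1, h1⟩ := Λs fun j => ((Cm *ᵥ w k) j).coeff (e j + 1)
    have zL : Cm *ᵥ w k - (X : ℝ[X]) • W *ᵥ (C ∘ v1) ∈ L0 e H D := by
      refine ⟨fun j => ?_, fun i => ?_⟩
      · have a1 : ((Cm *ᵥ w k) j).natDegree ≤ e j + 1 := by
          rw [mulVec, dotProduct]
          refine natDegree_sum_le_of_forall_le _ _ fun l _ => ?_
          rcases dC j l with h | h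
          · simp [h]
          refine natDegree_mul_le.trans ?_
          have := (wL k).1 l; have := dN l; have := dN j
          simp only [hE] at *
          omega
        have a2 := (WL v1).1 j
        rw [natDegree_le_iff_coeff_eq_zero] at *
        intro m hm
        obtain ⟨m, rfl⟩ : ∃ m', m = m' + 1 := ⟨m - 1, by omega⟩
        rw [Pi.sub_apply, Pi.smul_apply, smul_eq_mul, coeff_sub, coeff_X_mul]
        rcases (Nat.le_of_lt_succ hm).eq_or_lt with h | h
        · rw [← h, Λv, h1, sub_self]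
        · rw [a1 _ (by omega), a2 _ h, sub_self]
      · rw [mulVec_sub, mulVec_smul, mulVec_mulVec, hc, ← mulVec_mulVec, hw, mulVec_smul]
        exact dvd_sub (dvd_mul_right _ _) (((WL v1).2 i).mul_left _)
    obtain ⟨v0, h0⟩ := Λs fun j => ((Cm *ᵥ w k - (X : ℝ[X]) • W *ᵥ (C ∘ v1)) j).coeff (e j)
    refine ⟨v0, v1, ?_⟩
    rw [← sub_eq_iff_eq_add, ← sub_eq_zero]
    refine z0 _ (Submodule.sub_mem _ zL (WL v0)) fun j => ?_
    rw [Pi.sub_apply, coeff_sub, Λv, h0, sub_self]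
  choose v0 v1 hv using st
  choose G hG using fun a b => key d H hs he dH D D0 co dD (wL b) (wL a)
  refine ⟨W, of G, (of v0)ᵀ, (of v1)ᵀ, ?_, ?_, Wi⟩
  · ext a b : 1
    rw [Matrix.mul_assoc]
    exact (hG a b).1
  · ext j k : 1
    rw [Matrix.mul_add, Matrix.mul_smul]
    exact congrFun (hv k) j

open scoped MatrixOrder in
theorem core (d : Fin n → ℕ) (H Cm : Matrix (Fin n) (Fin n) ℝ[X]) (hs : Hᵀ = H)
    (he : H.map sg = H) (ce : Cm.map sg = Cm) (hc : H * Cm = Cmᵀ * H)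
    (dH : ∀ i j, (H i j).natDegree ≤ d i + d j)
    (dC : ∀ i j, Cm i j = 0 ∨ (Cm i j).natDegree + d i ≤ d j + 1)
    (D : ℝ[X]) (c : ℝ) (c0 : c ≠ 0) (hD : H.det = C c * (D * sg D)) (co : IsCoprime D (sg D))
    (dD : D.natDegree = ∑ i, d i) (pos : ∀ w : Fin n → ℝ[X], (sg ∘ w) ⬝ᵥ H *ᵥ w = 0 → w = 0)
    (ps : ∀ v : Fin n → ℝ, 0 ≤ v ⬝ᵥ H.map (eval 0) *ᵥ v) :
    ∃ S A : Matrix (Fin n) (Fin n) ℝ, Sᵀ = S ∧ Aᵀ = -A ∧
      Cm.charpoly = (S.map C + (X : ℝ[X]) • A.map C).charpoly := by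
  obtain ⟨W, G, M0, M1, hG, hM, Wi⟩ := exists_W d H Cm hs he hc dH dC D c c0 hD co dD pos
  have e0 : ∀ f : ℝ[X], (sg f).eval 0 = f.eval 0 := fun f => by simp
  have D0 : D.eval 0 ≠ 0 := fun h => by
    obtain ⟨a, b, e⟩ := co
    have := congrArg (eval 0) e
    rw [eval_add, eval_mul, eval_mul, e0, h] at this
    simp at this
  have E0 : D * sg D ≠ 0 := fun h => by
    have := congrArg (eval 0) h
    rw [eval_mul, e0, eval_zero] at this
    exact D0 (mul_self_eq_zero.1 this)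
  have sC : ∀ M : Matrix (Fin n) (Fin n) ℝ, (M.map C).map sg = M.map C := fun M => by
    ext i j : 1
    exact sg_C _
  have ss : (W.map sg).map sg = W := by
    ext i j : 1
    exact sg_sg _
  have Ci : ∀ M M' : Matrix (Fin n) (Fin n) ℝ, M.map (C : ℝ → ℝ[X]) = M'.map C → M = M' :=
    fun M M' h => map_injective C_injective h
  have Gs : Gᵀ = G := by
    have h := congrArg (fun M => (M.map sg)ᵀ) hG
    rw [Matrix.map_mul, Matrix.map_mul, he, transpose_map, ss, transpose_mul, transpose_mul, hs,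
      transpose_transpose, ← Matrix.mul_assoc, hG] at h
    ext i j
    have := congrFun (congrFun h j) i
    simp only [Matrix.smul_apply, transpose_apply, map_apply, smul_eq_mul, map_mul, sg_sg, sg_C] at this
    rw [mul_comm (sg D) D] at this
    exact C_injective (mul_left_cancel₀ E0 this)
  have q : ∀ v : Fin n → ℝ, (sg ∘ (W *ᵥ (C ∘ v))) ⬝ᵥ H *ᵥ (W *ᵥ (C ∘ v)) =
      D * sg D * C (v ⬝ᵥ G *ᵥ v) := fun v => by
    have : sg ∘ (W *ᵥ (C ∘ v)) = W.map sg *ᵥ (C ∘ v) := by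
      ext i : 1
      rw [Function.comp_apply, RingHom.map_mulVec]
      congr 1
      ext j : 1
      exact sg_C _
    rw [this, mulVec_mulVec, ← vecMul_transpose, ← dotProduct_mulVec, mulVec_mulVec,
      ← Matrix.mul_assoc, hG, smul_mulVec, dotProduct_smul, smul_eq_mul, RingHom.map_dotProduct]
    congr 2
    ext i : 1
    exact (RingHom.map_mulVec C G v i).symm
  have G0 : G.det ≠ 0 := fun h => by
    obtain ⟨v, v0, hv⟩ := exists_mulVec_eq_zero_iff.2 h
    exact v0 (Wi v (pos _ (by rw [q, hv, dotProduct_zero, C_0, mul_zero])))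
  have Gp : G.PosSemidef := PosSemidef.of_dotProduct_mulVec_nonneg Gs fun v => by
    have h := congrArg (evalRingHom 0) (q v)
    rw [RingHom.map_dotProduct] at h
    have h2 := ps (evalRingHom 0 ∘ (W *ᵥ (C ∘ v)))
    have : evalRingHom 0 ∘ sg ∘ (W *ᵥ (C ∘ v)) = evalRingHom 0 ∘ (W *ᵥ (C ∘ v)) :=
      funext fun i => e0 _
    have h3 : evalRingHom 0 ∘ (H *ᵥ (W *ᵥ (C ∘ v))) =
        H.map (eval 0) *ᵥ (evalRingHom 0 ∘ (W *ᵥ (C ∘ v))) :=
      funext fun i => RingHom.map_mulVec _ _ _ _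
    rw [this, h3] at h
    rw [h, coe_evalRingHom, eval_mul, eval_mul, e0, eval_C] at h2
    exact nonneg_of_mul_nonneg_right h2 (mul_self_pos.2 D0)
  have W0 : W.det ≠ 0 := fun h => by
    have := congrArg det hG
    rw [det_mul, h, mul_zero, det_smul, ← RingHom.mapMatrix_apply, ← RingHom.map_det] at this
    exact mul_ne_zero (pow_ne_zero _ E0) (C_ne_zero.2 G0) this.symm
  have GM : G.map C * (M0.map C + (X : ℝ[X]) • M1.map C) =
      (M0.map C - (X : ℝ[X]) • M1.map C)ᵀ * G.map C := by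
    have h := congrArg (fun M => M.map sg) hM
    simp only [Matrix.map_mul, ce] at h
    have h2 : (M0.map C + (X : ℝ[X]) • M1.map C).map sg = M0.map C - (X : ℝ[X]) • M1.map C := by
      ext i j : 1
      simp [sub_eq_add_neg]
    refine smul_right_injective _ E0 ?_
    dsimp only
    rw [← Matrix.smul_mul, ← Matrix.mul_smul, ← hG, Matrix.mul_assoc, ← hM, ← h2,
      ← Matrix.mul_assoc, ← Matrix.mul_assoc, ← Matrix.mul_assoc, ← transpose_mul, ← h,
      transpose_mul, Matrix.mul_assoc _ H, hc, Matrix.mul_assoc, Matrix.mul_assoc,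
      Matrix.mul_assoc, Matrix.mul_assoc]
  rw [transpose_sub, transpose_smul, Matrix.mul_add, Matrix.sub_mul, Matrix.mul_smul,
    Matrix.smul_mul, ← transpose_map, ← transpose_map, ← Matrix.map_mul, ← Matrix.map_mul,
    ← Matrix.map_mul, ← Matrix.map_mul] at GM
  have g0 : G * M0 = M0ᵀ * G := by
    ext i j
    simpa [-Matrix.map_mul] using congrArg (coeff · 0) (congrFun (congrFun GM i) j)
  have g1 : G * M1 = -(M1ᵀ * G) := by
    ext i j
    simpa [-Matrix.map_mul] using congrArg (coeff · 1) (congrFun (congrFun GM i) j)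
  obtain ⟨P, hP⟩ := CStarAlgebra.nonneg_iff_eq_star_mul_self.1 Gp.nonneg
  rw [star_eq_conjTranspose, conjTranspose_eq_transpose_of_trivial] at hP
  have P0 : P.det ≠ 0 := fun h => G0 (by rw [hP, det_mul, h, mul_zero])
  have pp := mul_nonsing_inv P (Ne.isUnit P0)
  have pp' := nonsing_inv_mul P (Ne.isUnit P0)
  have pt : P⁻¹ᵀ * Pᵀ = 1 := by rw [← transpose_mul, pp, transpose_one]
  have f : ∀ M : Matrix (Fin n) (Fin n) ℝ, (P * M * P⁻¹)ᵀ = P⁻¹ᵀ * (Mᵀ * G) * P⁻¹ ∧
      P * M * P⁻¹ = P⁻¹ᵀ * (G * M) * P⁻¹ := fun M => by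
    constructor
    · simp only [hP, transpose_mul, Matrix.mul_assoc, pp, Matrix.mul_one]
    · simp only [hP, ← Matrix.mul_assoc, pt, Matrix.one_mul]
  refine ⟨P * M0 * P⁻¹, P * M1 * P⁻¹, ?_, ?_, ?_⟩
  · rw [(f M0).1, ← g0, ← (f M0).2]
  · rw [(f M1).1, (f M1).2, g1, Matrix.mul_neg, Matrix.neg_mul, neg_neg]
  rw [charpoly_eq_of_mul hM W0]
  refine (charpoly_eq_of_mul (W := P.map C) ?_ ?_).symm
  · simp only [Matrix.mul_add, Matrix.add_mul, Matrix.mul_smul, Matrix.smul_mul, ← Matrix.map_mul,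
      Matrix.mul_assoc, pp', Matrix.mul_one]
  · rw [← RingHom.mapMatrix_apply, ← RingHom.map_det]
    exact C_ne_zero.2 P0

end Pool.Agent.H.MP_ca7272_al
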