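import Pool.Agent.H.MP_ca7272_al.B

set_option autoImplicit false

namespace Pool.Agent.H.MP_ca7272_al
open Polynomial Matrix Finset

variable {n : ℕ}

lemma aeval_sg (z : ℂ) (f : ℝ[X]) : aeval z (sg f) = aeval (-z) f := by
  simp [aeval_comp]

lemma coprime_sg {D : ℝ[X]} (h : ∀ z : ℂ, aeval z D = 0 → z.re < 0) : IsCoprime D (sg D) := by
  rw [isCoprime_iff_aeval_ne_zero_of_isAlgClosed ℝ ℂ]
  intro z
  by_contra e
  push Not at e
  have h1 := h z e.1
  have h2 := h (-z) (aeval_sg z D ▸ e.2)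
  rw [Complex.neg_re] at h2
  linarith

lemma hurwitz (g : ℝ[X]) (hg : sg g = g) (h : ∀ τ : ℝ, aeval (τ * Complex.I) g ≠ 0) :
    ∃ (c : ℝ) (D : ℝ[X]), c ≠ 0 ∧ g = C c * (D * sg D) ∧ ∀ z : ℂ, aeval z D = 0 → z.re < 0 := by
  induction hk : g.natDegree using Nat.strong_induction_on generalizing g with
  | _ k ih =>
  have g0 : g ≠ 0 := fun e => h 0 (by rw [e, map_zero])
  by_cases hd : g.degree = 0
  · refine ⟨g.coeff 0, 1, fun e => g0 ?_, ?_, by simp⟩
    · rw [eq_C_of_degree_eq_zero hd, e, C_0]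
    · rw [map_one, mul_one, mul_one]
      exact eq_C_of_degree_eq_zero hd
  obtain ⟨z, hz, zn⟩ : ∃ z : ℂ, aeval z g = 0 ∧ z.re < 0 := by
    obtain ⟨z, hz⟩ := IsAlgClosed.exists_aeval_eq_zero ℂ g hd
    rcases lt_trichotomy z.re 0 with e | e | e
    · exact ⟨z, hz, e⟩
    · refine absurd ?_ (h z.im)
      rw [← hz]
      congr 2
      apply Complex.ext <;> simp [e]
    · exact ⟨-z, by rw [← aeval_sg, hg, hz], by simpa using e⟩
  have zi : IsIntegral ℝ z := Algebra.IsIntegral.isIntegral z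
  have : Normal ℝ ℂ := normal_iff.2 fun x =>
    ⟨Algebra.IsIntegral.isIntegral x, IsAlgClosed.splits _⟩
  have hm : ∀ w : ℂ, aeval w (minpoly ℝ z) = 0 → w.re < 0 := fun w hw => by
    obtain ⟨s, hs⟩ := (isConjRoot_of_aeval_eq_zero zi hw).exists_algEquiv
    rcases Complex.real_algHom_eq_id_or_conj s with e | e
    all_goals
      have := congrArg Complex.re (DFunLike.congr_fun e w)
      simp [hs] at this
      linarith
  have d1 := minpoly.dvd ℝ z hz
  obtain ⟨g', e⟩ := (coprime_sg hm).mul_dvd d1 (hg ▸ map_dvd sg d1)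
  set m := minpoly ℝ z
  have m0 : m * sg m ≠ 0 := left_ne_zero_of_mul (e ▸ g0)
  have g1 : g' ≠ 0 := right_ne_zero_of_mul (e ▸ g0)
  have s' : sg g' = g' := mul_left_cancel₀ m0 (by
    rw [← e, ← hg, e, map_mul, map_mul, sg_sg, mul_comm m])
  have lt : g'.natDegree < k := by
    have : 0 < m.natDegree := minpoly.natDegree_pos zi
    rw [← hk, e, natDegree_mul m0 g1, natDegree_mul (left_ne_zero_of_mul m0)
      (right_ne_zero_of_mul m0)]
    omega
  obtain ⟨c, D, c0, e', hD⟩ := ih _ lt g' s' (fun τ t => h τ (by rw [e, map_mul, t, mul_zero])) rfl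
  refine ⟨c, m * D, c0, by rw [e, e', map_mul sg]; ring, fun w hw => ?_⟩
  rw [map_mul, mul_eq_zero] at hw
  exact hw.elim (hm w) (hD w)

section
variable {R S : Type} [CommRing R] [CommRing S]

/-- The companion matrix. -/
noncomputable def cmp (n : ℕ) (F : R[X]) : Matrix (Fin n) (Fin n) R :=
  of fun i j => if (j : ℕ) + 1 = n then -F.coeff i else if (i : ℕ) = j + 1 then 1 else 0

/-- The Hermite matrix of power sums. -/
noncomputable def herm (n : ℕ) (F : R[X]) : Matrix (Fin n) (Fin n) R :=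
  of fun i j => trace (cmp n F ^ ((i : ℕ) + j))

lemma cmp_map (F : R[X]) (φ : R →+* S) : (cmp n F).map φ = cmp n (F.map φ) := by
  ext i j
  simp only [cmp, map_apply, of_apply, coeff_map]
  split_ifs <;> simp

lemma herm_map (F : R[X]) (φ : R →+* S) : (herm n F).map φ = herm n (F.map φ) := by
  ext i j
  simp only [herm, map_apply, of_apply, ← cmp_map]
  rw [← RingHom.mapMatrix_apply, ← map_pow, RingHom.mapMatrix_apply, AddMonoidHom.map_trace]

end

lemma vand {K : Type} [Field K] {F : K[X]} (hF : F.Monic) (dF : F.natDegree = n) {r : Fin n → K}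
    (hr : Function.Injective r) (h0 : ∀ a, F.eval (r a) = 0) :
    vandermonde r * cmp n F = diagonal r * vandermonde r ∧
      herm n F = (vandermonde r)ᵀ * vandermonde r ∧ (cmp n F).charpoly = F := by
  have V0 := det_vandermonde_ne_zero_iff.2 hr
  have e : vandermonde r * cmp n F = diagonal r * vandermonde r := by
    ext a j
    rw [diagonal_mul, mul_apply]
    simp only [vandermonde_apply, cmp, of_apply]
    split_ifs with h
    · have := h0 a
      rw [eval_eq_sum_range, dF, sum_range_succ, ← dF, hF.coeff_natDegree, dF,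
        ← Fin.sum_univ_eq_sum_range (fun i => F.coeff i * r a ^ i)] at this
      simp only [mul_comm (r a ^ _), neg_mul, sum_neg_distrib]
      rw [← pow_succ', h]
      linear_combination -this
    · rw [sum_eq_single ⟨j + 1, by omega⟩]
      · simp [pow_succ']
      · intro b _ hb
        rw [if_neg fun e => hb (Fin.ext e), mul_zero]
      · simp
  refine ⟨e, ?_, ?_⟩
  · have p : ∀ k, vandermonde r * cmp n F ^ k = diagonal r ^ k * vandermonde r := fun k => by
      induction k with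
      | zero => simp
      | succ k ih => rw [pow_succ, ← Matrix.mul_assoc, ih, Matrix.mul_assoc, e, pow_succ,
          Matrix.mul_assoc]
    ext i j
    rw [vandermonde_transpose_mul_vandermonde, herm, of_apply,
      ← nonsing_inv_mul_cancel_left _ (cmp n F ^ _) (Ne.isUnit V0), p, trace_mul_comm,
      mul_nonsing_inv_cancel_right _ _ (Ne.isUnit V0), diagonal_pow, trace_diagonal]
    rfl
  · rw [← charpoly_eq_of_mul e.symm V0, charpoly_diagonal]
    refine (eq_of_monic_of_dvd_of_natDegree_le (monic_prod_X_sub_C _ _) hF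
      (Fintype.prod_dvd_of_coprime (pairwise_coprime_X_sub_C hr) fun a =>
        dvd_iff_isRoot.2 (h0 a)) ?_).symm
    rw [natDegree_finsetProd_X_sub_C_eq_card, dF, card_univ, Fintype.card_fin]

lemma shift {p : ℝ[X]} {m k : ℕ} (h : (X ^ m * p).natDegree ≤ m + k) : p.natDegree ≤ k := by
  by_cases e : p = 0
  · simp [e]
  rw [natDegree_X_pow_mul m e] at h
  omega

/-- Weighted degree bound `k` and top part `M'` of a polynomial matrix. -/
def Bd (M : Matrix (Fin n) (Fin n) ℝ[X]) (k : ℕ) (M' : Matrix (Fin n) (Fin n) ℝ) : Prop :=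
  ∀ i j : Fin n, (X ^ (i : ℕ) * M i j).natDegree ≤ j + k ∧
    (X ^ (i : ℕ) * M i j).coeff (j + k) = M' i j

lemma Bd.mul {M N : Matrix (Fin n) (Fin n) ℝ[X]} {k l : ℕ} {M' N' : Matrix (Fin n) (Fin n) ℝ}
    (hM : Bd M k M') (hN : Bd N l N') : Bd (M * N) (k + l) (M' * N') := fun i j => by
  have e : ∀ m : Fin n, X ^ (m : ℕ) * (X ^ (i : ℕ) * (M i m * N m j)) =
      (X ^ (i : ℕ) * M i m) * (X ^ (m : ℕ) * N m j) := fun m => by ring
  rw [mul_apply, mul_apply, mul_sum, finsetSum_coeff]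
  refine ⟨natDegree_sum_le_of_forall_le _ _ fun m _ => shift (m := m) ?_,
    sum_congr rfl fun m _ => ?_⟩
  · rw [e]
    refine natDegree_mul_le.trans ?_
    have := (hM i m).1; have := (hN m j).1
    omega
  · rw [← coeff_X_pow_mul _ m, e, ← (hM i m).2, ← (hN m j).2,
      ← coeff_mul_add_eq_of_natDegree_le (hM i m).1 (hN m j).1]
    congr 1
    ring

lemma Bd.pow {M : Matrix (Fin n) (Fin n) ℝ[X]} {M' : Matrix (Fin n) (Fin n) ℝ}
    (h : Bd M 1 M') (k : ℕ) : Bd (M ^ k) k (M' ^ k) := by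
  induction k with
  | zero =>
    intro i j
    by_cases e : i = j <;> simp [one_apply, e]
  | succ k ih => simpa only [pow_succ] using ih.mul h

lemma Bd.trace {M : Matrix (Fin n) (Fin n) ℝ[X]} {M' : Matrix (Fin n) (Fin n) ℝ} {k : ℕ}
    (h : Bd M k M') : M.trace.natDegree ≤ k ∧ M.trace.coeff k = M'.trace := by
  rw [Matrix.trace, Matrix.trace, finsetSum_coeff]
  refine ⟨natDegree_sum_le_of_forall_le _ _ fun i _ => shift (h i i).1,
    sum_congr rfl fun i _ => ?_⟩
  rw [← coeff_X_pow_mul _ i, add_comm]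
  exact (h i i).2

/-- Total degree at most `n`, with top part `g`. -/
def Top (n : ℕ) (F : ℝ[X][X]) (g : ℝ[X]) : Prop :=
  ∀ k, (X ^ k * F.coeff k).natDegree ≤ n ∧ (X ^ k * F.coeff k).coeff n = g.coeff k

lemma Top.bd {F : ℝ[X][X]} {g : ℝ[X]} (h : Top n F g) : Bd (cmp n F) 1 (cmp n g) := fun i j => by
  simp only [cmp, of_apply]
  split_ifs with h1 h2
  · rw [h1, mul_neg, natDegree_neg, coeff_neg, (h i).2]
    exact ⟨(h i).1, rfl⟩
  · simp [h2]
  · simp

lemma coeff_prod_le {ι : Type} (s : Finset ι) (f : ι → ℝ[X]) (k : ι → ℕ)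
    (h : ∀ i, (f i).natDegree ≤ k i) : (∏ i ∈ s, f i).natDegree ≤ ∑ i ∈ s, k i ∧
      (∏ i ∈ s, f i).coeff (∑ i ∈ s, k i) = ∏ i ∈ s, (f i).coeff (k i) := by
  refine ⟨(natDegree_prod_le _ _).trans (sum_le_sum fun i _ => h i), ?_⟩
  induction s using Finset.cons_induction with
  | empty => simp
  | cons a s ha ih =>
    rw [prod_cons, prod_cons, sum_cons, ← ih, coeff_mul_add_eq_of_natDegree_le (h a)
      ((natDegree_prod_le _ _).trans (sum_le_sum fun i _ => h i))]

lemma coeff_det (M : Matrix (Fin n) (Fin n) ℝ[X]) (a b : Fin n → ℕ)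
    (h : ∀ i j, (M i j).natDegree ≤ a i + b j) :
    M.det.coeff (∑ i, a i + ∑ j, b j) = (of fun i j => (M i j).coeff (a i + b j)).det := by
  rw [det_apply, det_apply, finsetSum_coeff]
  refine sum_congr rfl fun s _ => ?_
  rw [coeff_smul, ← Equiv.sum_comp s a, ← sum_add_distrib,
    (coeff_prod_le _ _ _ fun i => h (s i) i).2]
  rfl

end Pool.Agent.H.MP_ca7272_al
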