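import Pool.Agent.H.MP_ca7272_al.C

set_option autoImplicit false

namespace Pool.Agent.H.MP_ca7272_al
open Polynomial Matrix Finset

variable {n : ℕ}

/-- Evaluation at `τ i`. -/
noncomputable def ev (τ : ℝ) : ℝ[X] →+* ℂ := (aeval (τ * Complex.I : ℂ) : ℝ[X] →ₐ[ℝ] ℂ)

lemma ev_apply (τ : ℝ) (f : ℝ[X]) : ev τ f = aeval (τ * Complex.I : ℂ) f := rfl

lemma ev_inj {f : ℝ[X]} (h : ∀ τ, ev τ f = 0) : f = 0 := by
  rw [← Polynomial.map_eq_zero_iff (algebraMap ℝ ℂ).injective]
  refine eq_zero_of_infinite_isRoot _ (Set.infinite_of_injective_forall_mem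
    (f := fun τ : ℝ => (τ * Complex.I : ℂ)) (fun a b e => by simpa using e) fun τ => ?_)
  exact (eval_map_algebraMap _ _).trans (h τ)

lemma ev_sg (τ : ℝ) (f : ℝ[X]) : ev τ (sg f) = star (ev τ f) := by
  rw [ev_apply, ev_apply, aeval_sg, RCLike.star_def, ← aeval_conj]
  simp

/-- `f` has `n` distinct real roots. -/
def Sim (n : ℕ) (f : ℂ[X]) : Prop :=
  ∃ r : Fin n → ℝ, Function.Injective r ∧ ∀ a, f.eval (r a : ℂ) = 0

/-- The function `P` is a determinant of the required shape. -/
def Rep (n : ℕ) (P : ℝ → ℂ → ℂ) (S A : Matrix (Fin n) (Fin n) ℝ) : Prop :=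
  Sᵀ = S ∧ Aᵀ = -A ∧ ∀ (τ : ℝ) (x : ℂ), P τ x =
    (scalar (Fin n) x - (S.map Complex.ofReal + (τ * Complex.I : ℂ) • A.map Complex.ofReal)).det

open scoped ComplexOrder in
theorem strict (F : ℝ[X][X]) (g : ℝ[X]) (hF : F.Monic) (dF : F.natDegree = n)
    (hs : F.map sg = F) (top : Top n F g) (hτ : ∀ τ, Sim n (F.map (ev τ)))
    (hg : Sim n ((g.map (algebraMap ℝ ℂ)).comp (C Complex.I * X))) :
    ∃ S A, Rep n (fun τ x => (F.map (ev τ)).eval x) S A := by
  have mon : ∀ {K : Type} [Field K] (φ : ℝ[X] →+* K), (F.map φ).Monic ∧ (F.map φ).natDegree = n :=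
    fun φ => ⟨hF.map φ, by rw [hF.natDegree_map, dF]⟩
  choose r ri r0 using hτ
  have ci : ∀ τ, Function.Injective fun a => (r τ a : ℂ) := fun τ a b e =>
    ri τ (Complex.ofReal_injective e)
  have V := fun τ => vand (mon (ev τ)).1 (mon (ev τ)).2 (ci τ) (r0 τ)
  have V0 := fun τ => det_vandermonde_ne_zero_iff.2 (ci τ)
  have he : (herm n F).map sg = herm n F := by rw [herm_map, hs]
  have tr := fun k => (top.bd.pow k).trace
  have gn : g.coeff n = 1 := by
    rw [← (top n).2, ← dF, hF.coeff_natDegree, mul_one, coeff_X_pow_self]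
  have gd : g.natDegree ≤ n := natDegree_le_iff_coeff_eq_zero.2 fun k hk => by
    rw [← (top k).2, coeff_eq_zero_of_natDegree_lt (p := F) (dF ▸ hk), mul_zero, coeff_zero]
  have gm := monic_of_natDegree_le_of_coeff_eq_one n gd gn
  have gd' : g.natDegree = n := natDegree_eq_of_le_of_coeff_ne_zero gd (gn ▸ one_ne_zero)
  obtain ⟨ρ, ρi, ρ0⟩ := hg
  have ρc : Function.Injective fun a => Complex.I * (ρ a : ℂ) := fun a b e =>
    ρi (by simpa using e)
  have Vg := (vand (gm.map (algebraMap ℝ ℂ)) (by rw [gm.natDegree_map, gd']) ρc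
    fun a => by simpa [eval_comp] using ρ0 a).2.1
  have g0 : (herm n g).det ≠ 0 := fun h => by
    have := congrArg det Vg
    rw [← herm_map, ← RingHom.mapMatrix_apply, ← RingHom.map_det, h, map_zero, det_mul,
      det_transpose] at this
    exact det_vandermonde_ne_zero_iff.2 ρc (mul_self_eq_zero.1 this.symm)
  have dH : ∀ i j : Fin n, (herm n F i j).natDegree ≤ i + j := fun i j => (tr _).1
  have dd : (herm n F).det.natDegree = ∑ i : Fin n, (i : ℕ) + ∑ i : Fin n, (i : ℕ) := by
    refine natDegree_eq_of_le_of_coeff_ne_zero (natDegree_det_le _ _ _ dH) ?_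
    rw [coeff_det _ _ _ dH]
    convert g0
    ext i j
    exact (tr _).2
  obtain ⟨c, D, c0, hD, hz⟩ := hurwitz (herm n F).det
    (by rw [RingHom.map_det, RingHom.mapMatrix_apply, he]) fun τ => by
      rw [← ev_apply, RingHom.map_det, RingHom.mapMatrix_apply, herm_map, (V τ).2.1, det_mul,
        det_transpose]
      exact mul_ne_zero (V0 τ) (V0 τ)
  have D0 : D ≠ 0 := fun e => by simpa using hz 0 (by rw [e, map_zero])
  have dD : D.natDegree = ∑ i : Fin n, (i : ℕ) := by
    rw [hD, natDegree_C_mul c0, natDegree_mul D0 fun e => D0 (by rw [← sg_sg D, e, map_zero]),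
      deg_sg] at dd
    omega
  refine (core (fun i => i) (herm n F) (cmp n F)
    (by ext i j : 1; simp only [herm, transpose_apply, of_apply, add_comm]) he
    (by rw [cmp_map, hs]) ?_ dH ?_ D c c0 hD (coprime_sg hz) dD ?_ ?_).elim fun S h => ?_
  rotate_right
  · obtain ⟨A, hS, hA, ch⟩ := h
    refine ⟨S, A, hS, hA, fun τ x => ?_⟩
    dsimp only
    rw [← (V τ).2.2, ← cmp_map, charpoly_map, ch, ← charpoly_map, eval_charpoly]
    congr 2
    ext i j
    simp [ev_apply]
    ring
  · ext i j : 1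
    refine sub_eq_zero.1 (ev_inj fun τ => ?_)
    rw [map_sub, ← map_apply (f := ev τ), ← map_apply (f := ev τ), Matrix.map_mul, Matrix.map_mul,
      transpose_map, herm_map, cmp_map, (V τ).2.1, Matrix.mul_assoc, (V τ).1, ← Matrix.mul_assoc,
      ← Matrix.mul_assoc, ← transpose_mul, (V τ).1, transpose_mul, diagonal_transpose, sub_self]
  · intro i j
    by_cases h : cmp n F i j = 0
    · exact Or.inl h
    have := (top.bd i j).1
    rw [natDegree_X_pow_mul _ h] at this
    exact Or.inr this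
  · intro w hw
    ext i : 1
    refine ev_inj fun τ => ?_
    have h := congrArg (ev τ) hw
    have h1 : ev τ ∘ sg ∘ w = star (ev τ ∘ w) := funext fun i => ev_sg τ _
    have h2 : ev τ ∘ (herm n F *ᵥ w) = (herm n F).map (ev τ) *ᵥ (ev τ ∘ w) :=
      funext fun i => RingHom.map_mulVec _ _ _ _
    have h3 : (vandermonde fun a => (r τ a : ℂ))ᵀ = (vandermonde fun a => (r τ a : ℂ))ᴴ := by
      ext i j
      simp [vandermonde_apply]
    rw [RingHom.map_dotProduct, map_zero, h1, h2, herm_map, (V τ).2.1, h3, ← mulVec_mulVec,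
      dotProduct_mulVec, ← star_mulVec, dotProduct_star_self_eq_zero] at h
    exact congrFun (eq_zero_of_mulVec_eq_zero (V0 τ) h) i
  · intro v
    have e : ev 0 = (algebraMap ℝ ℂ).comp (evalRingHom 0) := by
      ext <;> simp [ev_apply]
    have := (vand (mon (evalRingHom 0)).1 (mon (evalRingHom 0)).2 (ri 0) fun a => by
      have := r0 0 a
      rw [e, ← Polynomial.map_map, eval_map_algebraMap, ← Complex.coe_algebraMap,
        aeval_algebraMap_apply, map_eq_zero] at this
      exact this).2.1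
    rw [← coe_evalRingHom, herm_map, this, ← mulVec_mulVec, dotProduct_mulVec, vecMul_transpose]
    exact dotProduct_self_star_nonneg _

end Pool.Agent.H.MP_ca7272_al
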