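import Pool.Agent.H.MP_ca7272_al.D

set_option autoImplicit false

namespace Pool.Agent.H.MP_ca7272_al
open Polynomial Matrix Finset

variable {n : ℕ}

lemma lag (c : ℂ) (z : ℂ) (s : Multiset ℂ) (hs : ∀ r ∈ s, r.im = 0) (hz : z ∉ s) (P : ℂ[X])
    (hP : P = C c * (s.map (X - C ·)).prod) :
    ∃ (L : ℂ) (T : ℝ), 0 ≤ T ∧ (T = 0 → L = 0) ∧ L.im = -z.im * T ∧
      P.derivative.eval z = P.eval z * L ∧ (z.im = 0 → P.derivative.eval z ^ 2 -
        P.derivative.derivative.eval z * P.eval z = P.eval z ^ 2 * T) := by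
  induction s using Multiset.induction_on generalizing P with
  | empty => exact ⟨0, 0, le_rfl, fun _ => rfl, by simp, by simp [hP], by simp [hP]⟩
  | cons r s ih =>
    obtain ⟨L, T, T0, -, hL, h1, h2⟩ := ih (fun a ha => hs a (Multiset.mem_cons_of_mem ha))
      (fun h => hz (Multiset.mem_cons_of_mem h)) _ rfl
    set Q := C c * (s.map (X - C ·)).prod
    have e : P = (X - C r) * Q := by rw [hP, Multiset.map_cons, Multiset.prod_cons]; ring
    have u0 : z - r ≠ 0 := sub_ne_zero.2 fun h => hz (h ▸ Multiset.mem_cons_self _ _)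
    have r0 := hs r (Multiset.mem_cons_self _ _)
    have p : 0 < (Complex.normSq (z - r))⁻¹ := inv_pos.2 (Complex.normSq_pos.2 u0)
    refine ⟨L + (z - r)⁻¹, T + (Complex.normSq (z - r))⁻¹, by positivity,
      fun h => absurd h (by positivity), ?_, ?_, fun h => ?_⟩
    · rw [Complex.add_im, hL, Complex.inv_im, Complex.sub_im, r0]
      ring
    · simp only [e, derivative_mul, derivative_sub, derivative_X, derivative_C, eval_add,
        eval_mul, eval_sub, eval_X, eval_C, eval_one, eval_zero, h1]
      field_simp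
      ring
    · have : (Complex.normSq (z - r) : ℂ) = (z - r) ^ 2 := by
        rw [← Complex.mul_conj, Complex.conj_eq_iff_im.2 (by simp [h, r0]), sq]
      simp only [e, derivative_mul, derivative_sub, derivative_X, derivative_C, eval_add,
        eval_mul, eval_sub, eval_X, eval_C, eval_one, eval_zero, derivative_add, derivative_one,
        derivative_zero, Complex.ofReal_add, Complex.ofReal_inv, this]
      field_simp
      linear_combination (z - r) ^ 2 * h2 h

/-- Real roots of multiplicity at most `m + 1`. -/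
def RR (m : ℕ) (f : ℂ[X]) : Prop :=
  f ≠ 0 ∧ (∀ z, f.eval z = 0 → z.im = 0) ∧ ∀ z, f.rootMultiplicity z ≤ m + 1

lemma deg_lt {R : Type} [CommRing R] {f : R[X]} (h : f ≠ 0) (a : R) :
    (C a * derivative f).degree < f.degree := by
  rw [← smul_eq_C_mul]
  exact (degree_smul_le _ _).trans_lt (degree_derivative_lt h)

lemma RR.step {m : ℕ} {f : ℂ[X]} (h : RR m f) {a : ℝ} (ha : a ≠ 0) :
    RR (m - 1) (f + C (a : ℂ) * derivative f) := by
  obtain ⟨f0, h1, h2⟩ := h
  have g0 : f + C (a : ℂ) * derivative f ≠ 0 := fun e => by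
    have := degree_add_eq_left_of_degree_lt (deg_lt f0 (a : ℂ))
    rw [e, degree_zero, eq_comm, degree_eq_bot] at this
    exact f0 this
  have a0 : (a : ℂ) ≠ 0 := Complex.ofReal_ne_zero.2 ha
  have k : ∀ z, f.eval z ≠ 0 → (f + C (a : ℂ) * derivative f).eval z = 0 → z.im = 0 ∧
      (derivative (f + C (a : ℂ) * derivative f)).eval z ≠ 0 := fun z hz hg => by
    obtain ⟨L, T, -, hT, hL, e1, e2⟩ := lag _ z f.roots (fun r hr => h1 r (isRoot_of_mem_roots hr))
      (fun hr => hz (isRoot_of_mem_roots hr)) f (IsAlgClosed.splits f).eq_prod_roots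
    rw [eval_add, eval_mul, eval_C] at hg
    have e3 : 1 + a * L = 0 := mul_left_cancel₀ hz (by linear_combination hg - a * e1)
    have T0 : T ≠ 0 := fun e => by simp [hT e] at e3
    have z0 : z.im = 0 := by simpa [hL, ha, T0] using congrArg Complex.im e3
    refine ⟨z0, fun e => ?_⟩
    simp only [derivative_add, derivative_C_mul, eval_add, eval_mul, eval_C] at e
    refine mul_ne_zero (pow_ne_zero 2 hz) (Complex.ofReal_ne_zero.2 T0) ?_
    linear_combination -e2 z0 + (derivative f).eval z * e - (derivative (derivative f)).eval z * hg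
  refine ⟨g0, fun z hz => ?_, fun z => ?_⟩
  · by_cases e : f.eval z = 0
    · exact h1 z e
    · exact (k z e hz).1
  by_cases e : f.eval z = 0
  · have d0 : derivative f ≠ 0 := fun d => f0 (by
      rw [eq_C_of_derivative_eq_zero d, eval_C] at e
      rw [eq_C_of_derivative_eq_zero d, e, C_0])
    have p := (rootMultiplicity_pos f0).2 e
    have q := derivative_rootMultiplicity_of_root (p := f) e
    by_contra hc
    have d1 := (le_rootMultiplicity_iff g0).1
      (show f.rootMultiplicity z ≤ _ from (by have := h2 z; omega : _ ≤ m - 1 + 1 + 1).trans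
        (not_le.1 hc))
    rw [dvd_add_right (pow_rootMultiplicity_dvd f z), (isUnit_C.2 (Ne.isUnit a0)).dvd_mul_left,
      ← le_rootMultiplicity_iff d0] at d1
    omega
  · by_contra hc
    have := (one_lt_rootMultiplicity_iff_isRoot g0 (t := z)).1 (by omega)
    exact (k z e this.1).2 this.2

lemma RR.sim {f : ℂ[X]} (h : RR 0 f) (d : f.natDegree = n) : Sim n f := by
  classical
  have nd : f.roots.Nodup := Multiset.nodup_iff_count_le_one.2 fun z => by
    rw [count_roots]
    exact h.2.2 z
  have c : f.roots.toFinset.card = n := by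
    rw [Multiset.toFinset_card_of_nodup nd, ← d, (IsAlgClosed.splits f).natDegree_eq_card_roots]
  let e := (f.roots.toFinset.equivFinOfCardEq c).symm
  have r : ∀ a, f.eval (e a).1 = 0 := fun a =>
    isRoot_of_mem_roots (Multiset.mem_toFinset.1 (e a).2)
  have t : ∀ a, (((e a).1.re : ℝ) : ℂ) = e a := fun a =>
    Complex.ext rfl (by simp [h.2.1 _ (r a)])
  refine ⟨fun a => (e a).1.re, fun a b hab => e.injective (Subtype.ext ?_), fun a => ?_⟩
  · exact (t a).symm.trans ((congrArg Complex.ofReal hab).trans (t b))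
  · rw [t, r]

section
variable {R S : Type} [CommRing R] [CommRing S]

/-- The perturbation operator. -/
noncomputable def tt (a : R) (f : R[X]) : R[X] := f - C a * derivative (derivative f)

lemma tt_map (a : R) (φ : R →+* S) (k : ℕ) (f : R[X]) :
    ((tt a)^[k] f).map φ = (tt (φ a))^[k] (f.map φ) :=
  (Function.Semiconj.iterate_right (f := Polynomial.map φ) (fun f => by
    simp [tt, derivative_map]) k) f

lemma tt_lt {f : R[X]} (h : f ≠ 0) (a : R) :
    (C a * derivative (derivative f)).degree < f.degree := by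
  rw [← smul_eq_C_mul]
  exact ((degree_smul_le _ _).trans degree_derivative_le).trans_lt (degree_derivative_lt h)

lemma tt_deg (a : R) (k : ℕ) (f : R[X]) : ((tt a)^[k] f).natDegree = f.natDegree := by
  induction k with
  | zero => rfl
  | succ k ih =>
    rw [Function.iterate_succ_apply', ← ih]
    by_cases h : (tt a)^[k] f = 0
    · simp [h, tt]
    exact natDegree_eq_of_degree_eq (degree_sub_eq_left_of_degree_lt (tt_lt h a))

lemma tt_monic [Nontrivial R] (a : R) (k : ℕ) {f : R[X]} (h : f.Monic) : ((tt a)^[k] f).Monic := by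
  induction k with
  | zero => exact h
  | succ k ih =>
    rw [Function.iterate_succ_apply']
    exact ih.sub_of_left (tt_lt ih.ne_zero a)

lemma tt_sub (a b : R) (k : ℕ) (f g : R[X]) :
    (tt a)^[k] (f - C b * g) = (tt a)^[k] f - C b * (tt a)^[k] g := by
  induction k with
  | zero => rfl
  | succ k ih =>
    simp only [Function.iterate_succ_apply', ih, tt, derivative_sub, derivative_C_mul]
    ring

end

lemma tt_cont (b x : ℂ) (k : ℕ) (f : ℂ[X]) :
    Continuous fun e : ℝ => ((tt (e * b))^[k] f).eval x := by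
  induction k generalizing f with
  | zero => exact continuous_const (y := f.eval x)
  | succ k ih =>
    have : ∀ e : ℝ, (tt (e * b))^[k + 1] f = _ := fun e => tt_sub (e * b) (e * b) k f _
    simp only [this, eval_sub, eval_mul, eval_C]
    exact (ih _).sub (Continuous.mul (by fun_prop) (ih _))

lemma tt_sim {f : ℂ[X]} (f0 : f ≠ 0) (d : f.natDegree = n) (h : ∀ z, f.eval z = 0 → z.im = 0)
    {a : ℝ} (ha : 0 < a) : Sim n ((tt (a : ℂ))^[n] f) := by
  have : ∀ k, RR (n - k) ((tt (a : ℂ))^[k] f) := fun k => by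
    induction k with
    | zero =>
      refine ⟨f0, h, fun z => ?_⟩
      have := natDegree_le_of_dvd (pow_rootMultiplicity_dvd f z) f0
      rw [natDegree_pow, natDegree_X_sub_C] at this
      simp only [Function.iterate_zero_apply]
      omega
    | succ k ih =>
      have s0 := (Real.sqrt_pos.2 ha).ne'
      obtain ⟨h1, h2, h3⟩ := (ih.step s0).step (neg_ne_zero.2 s0)
      have e : C ((√a : ℝ) : ℂ) * C ((√a : ℝ) : ℂ) = C (a : ℂ) := by
        rw [← C_mul, ← Complex.ofReal_mul, Real.mul_self_sqrt ha.le]
      rw [Function.iterate_succ_apply']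
      set g := (tt (a : ℂ))^[k] f
      have : g + C ((√a : ℝ) : ℂ) * derivative g + C ((-√a : ℝ) : ℂ) *
          derivative (g + C ((√a : ℝ) : ℂ) * derivative g) = tt (a : ℂ) g := by
        rw [tt, ← e, derivative_add, derivative_C_mul, Complex.ofReal_neg, C_neg]
        ring
      rw [this] at h1 h2 h3
      exact ⟨h1, h2, fun z => (h3 z).trans (by omega)⟩
  exact RR.sim (by simpa using this n) (by rw [tt_deg, d])

lemma tt_top {F : ℝ[X][X]} {g : ℝ[X]} (h : Top n F g) (e : ℝ) (k : ℕ) :
    Top n ((tt (C e * (1 - X ^ 2)))^[k] F) ((tt (-e))^[k] g) := by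
  induction k with
  | zero => exact h
  | succ k ih =>
    rw [Function.iterate_succ_apply', Function.iterate_succ_apply']
    set F := (tt (C e * (1 - X ^ 2)))^[k] F
    intro j
    have e1 : X ^ j * (tt (C e * (1 - X ^ 2)) F).coeff j = X ^ j * F.coeff j +
        C (e * (j + 1 + 1) * (j + 1)) * (X ^ (j + 2) * F.coeff (j + 2) - X ^ j * F.coeff (j + 2)) := by
      rw [tt, coeff_sub, coeff_C_mul, coeff_derivative, coeff_derivative]
      simp only [map_mul, map_add, map_natCast, map_one, Nat.cast_add, Nat.cast_one]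
      ring
    have e2 : X ^ (j + 2) * F.coeff (j + 2) = X ^ 2 * (X ^ j * F.coeff (j + 2)) := by ring
    have b := ih (j + 2)
    have b1 := natDegree_le_iff_coeff_eq_zero.1 b.1 (n + 2) (by omega)
    rw [e2, coeff_X_pow_mul] at b1
    have b2 : (X ^ j * F.coeff (j + 2)).natDegree ≤ n := shift (m := 2) (e2 ▸ b.1.trans (by omega))
    rw [e1]
    refine ⟨natDegree_add_le_of_degree_le (ih j).1 ((natDegree_C_mul_le _ _).trans
      ((natDegree_sub_le _ _).trans (max_le b.1 b2))), ?_⟩
    simp only [tt, coeff_add, coeff_sub, coeff_C_mul, coeff_derivative, b1, b.2, (ih j).2,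
      Nat.cast_add, Nat.cast_one]
    ring

lemma tt_comp (e : ℂ) (k : ℕ) (g : ℂ[X]) :
    ((tt (-e))^[k] g).comp (C Complex.I * X) = (tt e)^[k] (g.comp (C Complex.I * X)) :=
  (Function.Semiconj.iterate_right (f := fun g : ℂ[X] => g.comp (C Complex.I * X)) (fun f => by
    have : (C Complex.I) * C Complex.I = -1 := by rw [← C_mul, Complex.I_mul_I, C_neg, C_1]
    simp only [tt, derivative_comp, derivative_C_mul, derivative_X, mul_one, sub_comp, mul_comp,
      C_comp, C_neg, neg_comp]
    rw [← mul_assoc (C Complex.I), this]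
    ring) k) g

end Pool.Agent.H.MP_ca7272_al
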