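import Pool.Agent.H.MP_ca7272_al.E

set_option autoImplicit false

namespace Pool.Agent.H.MP_ca7272_al
open Polynomial Matrix Finset Filter Topology

variable {n : ℕ}

lemma herm_bound {K : Matrix (Fin n) (Fin n) ℂ} (hK : K.IsHermitian) (i j : Fin n) :
    ‖K i j‖ ≤ n * ‖(scalar (Fin n) Complex.I - K).det‖ := by
  have l : ∀ a, ‖(hK.eigenvalues a : ℂ)‖ ≤ ‖(scalar (Fin n) Complex.I - K).det‖ := fun a => by
    rw [← eval_charpoly, hK.charpoly_eq, eval_prod, norm_prod, ← mul_prod_erase _ _ (mem_univ a)]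
    simp only [eval_sub, eval_X, eval_C]
    refine le_trans ?_ (le_mul_of_one_le_right (norm_nonneg _) ?_)
    · simpa using Complex.abs_re_le_norm (Complex.I - hK.eigenvalues a)
    · refine prod_induction _ (1 ≤ ·) (fun _ _ => one_le_mul_of_one_le_of_one_le) le_rfl
        fun b _ => ?_
      simpa using Complex.abs_im_le_norm (Complex.I - hK.eigenvalues b)
  have u := entry_norm_bound_of_unitary hK.eigenvectorUnitary.2
  conv_lhs => rw [hK.spectral_theorem, Unitary.conjStarAlgAut_apply, mul_apply]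
  refine (norm_sum_le _ _).trans ((sum_le_card_nsmul _ _ _ fun a _ => ?_).trans_eq (by
    rw [card_univ, Fintype.card_fin, nsmul_eq_mul]))
  rw [mul_diagonal, norm_mul, norm_mul, star_apply, norm_star]
  calc _ ≤ 1 * ‖(scalar (Fin n) Complex.I - K).det‖ * 1 := by gcongr; exacts [u _ _, l a, u _ _]
    _ = _ := by ring

lemma closed (P : ℕ → ℝ → ℂ → ℂ) (Q : ℝ → ℂ → ℂ)
    (lim : ∀ τ x, Tendsto (fun k => P k τ x) atTop (𝓝 (Q τ x)))
    (rep : ∀ k, ∃ S A, Rep n (P k) S A) : ∃ S A, Rep n Q S A := by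
  choose S A hS hA hP using rep
  obtain ⟨R, hR⟩ := (lim 1 Complex.I).norm.bddAbove_range
  have b : ∀ k i j, |S k i j| ≤ n * R ∧ |A k i j| ≤ n * R := fun k i j => by
    have h : ((S k).map Complex.ofReal + ((1 : ℝ) * Complex.I : ℂ) •
        (A k).map Complex.ofReal).IsHermitian := by
      ext i j
      have e1 := congrFun (congrFun (hS k) i) j
      have e2 := congrFun (congrFun (hA k) i) j
      rw [transpose_apply] at e1 e2
      simp [e1, e2]
    have h1 := herm_bound h i j
    rw [← hP] at h1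
    have h2 := h1.trans (mul_le_mul_of_nonneg_left (hR ⟨k, rfl⟩) n.cast_nonneg)
    exact ⟨le_trans (by simp) ((Complex.abs_re_le_norm _).trans h2),
      le_trans (by simp) ((Complex.abs_im_le_norm _).trans h2)⟩
  obtain ⟨⟨S0, A0⟩, -, φ, hφ, t⟩ := IsCompact.tendsto_subseq
    (X := (Fin n → Fin n → ℝ) × (Fin n → Fin n → ℝ)) (isCompact_Icc
    (a := (fun _ _ => -(n * R), fun _ _ => -(n * R)))
    (b := (fun _ _ => n * R, fun _ _ => n * R))) (x := fun k => (of.symm (S k), of.symm (A k)))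
    fun k => ⟨⟨fun i j => (abs_le.1 (b k i j).1).1, fun i j => (abs_le.1 (b k i j).2).1⟩,
      fun i j => (abs_le.1 (b k i j).1).2, fun i j => (abs_le.1 (b k i j).2).2⟩
  have t1 := fun i j => tendsto_pi_nhds.1 (tendsto_pi_nhds.1 t.fst_nhds i) j
  have t2 := fun i j => tendsto_pi_nhds.1 (tendsto_pi_nhds.1 t.snd_nhds i) j
  refine ⟨of S0, of A0, ?_, ?_, fun τ x => ?_⟩
  · ext i j
    exact tendsto_nhds_unique (t1 j i) ((t1 i j).congr fun k =>
      (congrFun (congrFun (hS (φ k)) i) j).symm)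
  · ext i j
    exact tendsto_nhds_unique (t2 j i) ((t2 i j).neg.congr fun k =>
      (congrFun (congrFun (hA (φ k)) i) j).symm)
  refine tendsto_nhds_unique ((lim τ x).comp hφ.tendsto_atTop) ?_
  have c : Continuous fun q : (Fin n → Fin n → ℝ) × (Fin n → Fin n → ℝ) =>
      (scalar (Fin n) x - ((of q.1).map Complex.ofReal + (τ * Complex.I : ℂ) •
        (of q.2).map Complex.ofReal)).det := by
    refine Continuous.matrix_det (continuous_matrix fun i j => ?_)
    simp only [Matrix.sub_apply, Matrix.add_apply, Matrix.smul_apply, map_apply, of_apply]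
    fun_prop
  exact ((c.tendsto _).comp t).congr fun k => (hP (φ k) τ x).symm

theorem nonstrict (F : ℝ[X][X]) (g : ℝ[X]) (hF : F.Monic) (dF : F.natDegree = n)
    (hs : F.map sg = F) (top : Top n F g) (hτ : ∀ τ z, (F.map (ev τ)).eval z = 0 → z.im = 0)
    (hg : ∀ z, ((g.map (algebraMap ℝ ℂ)).comp (C Complex.I * X)).eval z = 0 → z.im = 0) :
    ∃ S A, Rep n (fun τ x => (F.map (ev τ)).eval x) S A := by
  have gn : g.coeff n = 1 := by
    rw [← (top n).2, ← dF, hF.coeff_natDegree, mul_one, coeff_X_pow_self]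
  have gd : g.natDegree ≤ n := natDegree_le_iff_coeff_eq_zero.2 fun k hk => by
    rw [← (top k).2, coeff_eq_zero_of_natDegree_lt (p := F) (dF ▸ hk), mul_zero, coeff_zero]
  have gd' : g.natDegree = n := natDegree_eq_of_le_of_coeff_ne_zero gd (gn ▸ one_ne_zero)
  have a : ∀ e τ : ℝ, ev τ (C e * (1 - X ^ 2)) = e * (1 + τ ^ 2) := fun e τ => by
    simp [ev_apply, mul_pow]
  refine closed (fun k τ x =>
    (((tt (C (1 / ((k : ℝ) + 1)) * (1 - X ^ 2)))^[n] F).map (ev τ)).eval x) _ (fun τ x => ?_)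
    fun k => ?_
  · simp only [tt_map, a]
    have := ((tt_cont (1 + τ ^ 2) x n (F.map (ev τ))).tendsto 0).comp
      tendsto_one_div_add_atTop_nhds_zero_nat
    have e : tt (0 : ℂ) = id := funext fun f => by simp [tt]
    simp only [Complex.ofReal_zero, zero_mul, e, Function.iterate_id, id] at this
    exact this
  have p : 0 < 1 / ((k : ℝ) + 1) := Nat.one_div_pos_of_nat
  refine strict _ _ (tt_monic _ _ hF) (by rw [tt_deg, dF]) ?_ (tt_top top _ _) (fun τ => ?_) ?_
  · rw [tt_map, hs]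
    simp
  · rw [tt_map, a]
    have := tt_sim (hF.map (ev τ)).ne_zero (by rw [hF.natDegree_map, dF]) (hτ τ)
      (mul_pos p (by positivity : 0 < 1 + τ ^ 2))
    simpa using this
  · rw [tt_map, map_neg, tt_comp]
    refine tt_sim (fun e => ?_) ?_ hg p
    · simpa [gn] using congrArg (coeff · n) e
    · rw [natDegree_comp, natDegree_map, natDegree_C_mul_X _ Complex.I_ne_zero, mul_one, gd']

end Pool.Agent.H.MP_ca7272_al
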