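import Pool.Agent.H.MP_ca7272_al.F

set_option autoImplicit false

namespace Pool.Agent.H.MP_ca7272_al
open Polynomial Matrix Finset Filter Topology

variable {n : ℕ}

lemma prod_ge {x : ℂ} (hx : 0 < x.im) (s : Multiset ℂ) (h : ∀ r ∈ s, r.im ≤ 0) :
    x.im ^ s.card ≤ ‖(s.map (x - ·)).prod‖ := by
  induction s using Multiset.induction_on with
  | empty => simp
  | cons r s ih =>
    rw [Multiset.card_cons, Multiset.map_cons, Multiset.prod_cons, norm_mul, pow_succ']
    refine mul_le_mul ?_ (ih fun a ha => h a (Multiset.mem_cons_of_mem ha)) (by positivity)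
      (norm_nonneg _)
    have := h r (Multiset.mem_cons_self _ _)
    have := Complex.im_le_norm (x - r)
    rw [Complex.sub_im] at this
    linarith

/-- A polynomial in the first variable with prescribed coefficients. -/
noncomputable def pl {R : Type} [CommRing R] (p : MvPolynomial (Fin 2) ℂ)
    (φ : (Fin 2 →₀ ℕ) → R) : R[X] := ∑ m ∈ p.support, monomial (m 0) (φ m)

/-- The homogenisation of `p`, as a function. -/
noncomputable def Q (n : ℕ) (p : MvPolynomial (Fin 2) ℂ) (x y t : ℂ) : ℂ :=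
  ∑ m ∈ p.support, p.coeff m * y ^ m 1 * t ^ (n - (m 0 + m 1)) * x ^ m 0

variable {p : MvPolynomial (Fin 2) ℂ}

lemma pl_eval (φ : (Fin 2 →₀ ℕ) → ℂ) (x : ℂ) :
    (pl p φ).eval x = ∑ m ∈ p.support, φ m * x ^ m 0 := by
  simp [pl, eval_finsetSum]

lemma pl_map {R S : Type} [CommRing R] [CommRing S] (φ : (Fin 2 →₀ ℕ) → R) (ψ : R →+* S) :
    (pl p φ).map ψ = pl p fun m => ψ (φ m) := by
  simp [pl, Polynomial.map_sum]

lemma pl_top {R : Type} [CommRing R] (hd : ∀ m ∈ p.support, m 0 + m 1 ≤ n)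
    (hc : p.coeff (.single 0 n) ≠ 0) (φ : (Fin 2 →₀ ℕ) → R) :
    (pl p φ).natDegree ≤ n ∧ (pl p φ).coeff n = φ (.single 0 n) := by
  refine ⟨natDegree_sum_le_of_forall_le _ _ fun m hm => (natDegree_monomial_le _).trans
    ((Nat.le_add_right _ _).trans (hd m hm)), ?_⟩
  rw [pl, finsetSum_coeff, sum_eq_single_of_mem _ (MvPolynomial.mem_support_iff.2 hc)]
  · simp
  intro m hm h
  rw [coeff_monomial, if_neg fun e => h ?_]
  have := hd m hm
  ext i
  fin_cases i
  · simpa using e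
  · simp
    omega

lemma Q_one (x y : ℂ) : Q n p x y 1 = MvPolynomial.eval ![x, y] p := by
  rw [MvPolynomial.eval_eq']
  exact sum_congr rfl fun m _ => by simp; ring

lemma Q_hom (hd : ∀ m ∈ p.support, m 0 + m 1 ≤ n) (l x y t : ℂ) :
    Q n p (l * x) (l * y) (l * t) = l ^ n * Q n p x y t := by
  rw [Q, Q, mul_sum]
  refine sum_congr rfl fun m hm => ?_
  obtain ⟨e, rfl⟩ := Nat.exists_eq_add_of_le (hd m hm)
  rw [Nat.add_sub_cancel_left]
  ring

lemma Q_zero (hd : ∀ m ∈ p.support, m 0 + m 1 ≤ n) (x y : ℂ) :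
    Q n p x y 0 = MvPolynomial.eval ![x, y] (MvPolynomial.homogeneousComponent n p) := by
  rw [MvPolynomial.homogeneousComponent_apply, map_sum, sum_filter]
  refine sum_congr rfl fun m hm => ?_
  have := hd m hm
  rw [Finsupp.degree_eq_sum, Fin.sum_univ_two]
  split_ifs with h
  · simp [MvPolynomial.eval_monomial, h, Finsupp.prod_fintype]
    ring
  · rw [zero_pow (by omega)]
    ring

lemma Q_c (hd : ∀ m ∈ p.support, m 0 + m 1 ≤ n) : Q n p 1 0 0 = p.coeff (.single 0 n) := by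
  rw [Q, sum_eq_single (.single 0 n)]
  · simp
  · intro m hm h
    have := hd m hm
    by_cases e : m 1 = 0
    · rw [zero_pow (n := n - _) fun e' => h ?_]
      · ring
      ext i
      fin_cases i
      · simp
        omega
      · simpa using e
    · rw [zero_pow e]
      ring
  · intro h
    simp [MvPolynomial.notMem_support_iff.1 h]

lemma Q_prod (hd : ∀ m ∈ p.support, m 0 + m 1 ≤ n) (hc : p.coeff (.single 0 n) ≠ 0) (y t : ℂ) :
    ∃ s : Multiset ℂ, s.card = n ∧ (∀ r ∈ s, Q n p r y t = 0) ∧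
      ∀ x, Q n p x y t = p.coeff (.single 0 n) * (s.map (x - ·)).prod := by
  set f := pl p fun m => p.coeff m * y ^ m 1 * t ^ (n - (m 0 + m 1))
  have h := pl_top hd hc fun m => p.coeff m * y ^ m 1 * t ^ (n - (m 0 + m 1))
  have h2 : f.coeff n = p.coeff (.single 0 n) := h.2.trans (by simp)
  have d : f.natDegree = n := natDegree_eq_of_le_of_coeff_ne_zero h.1 (h2 ▸ hc)
  refine ⟨f.roots, by rw [← (IsAlgClosed.splits f).natDegree_eq_card_roots, d], fun r hr =>
    (pl_eval _ r).symm.trans (isRoot_of_mem_roots hr), fun x => ?_⟩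
  rw [← h2, ← d, coeff_natDegree, ← (IsAlgClosed.splits f).eval_eq_prod_roots, pl_eval, d]
  rfl

lemma Q_ge (hd : ∀ m ∈ p.support, m 0 + m 1 ≤ n) (hc : p.coeff (.single 0 n) ≠ 0)
    (hs : ∀ x y : ℂ, 0 < x.im → 0 < y.im → MvPolynomial.eval ![x, y] p ≠ 0) {x y : ℂ} {t : ℝ}
    (hx : 0 < x.im) (hy : 0 ≤ y.im) (ht : 0 ≤ t) : Q n p x y t ≠ 0 := by
  have c : Continuous fun δ : ℝ => ‖Q n p x (y + δ * Complex.I) (t + δ : ℝ)‖ := by
    unfold Q
    fun_prop
  have : ‖p.coeff (.single 0 n)‖ * x.im ^ n ≤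
      ‖Q n p x (y + (0 : ℝ) * Complex.I) (t + 0 : ℝ)‖ := by
    refine ge_of_tendsto ((c.tendsto 0).mono_left (nhdsWithin_le_nhds (s := Set.Ioi 0)))
      (eventually_nhdsWithin_of_forall fun δ (hδ : 0 < δ) => ?_)
    obtain ⟨s, rfl, h1, h2⟩ := Q_prod hd hc (y + δ * Complex.I) (t + δ : ℝ)
    rw [h2, norm_mul]
    refine mul_le_mul_of_nonneg_left (prod_ge hx s fun r hr => not_lt.1 fun h => ?_)
      (norm_nonneg _)
    have l : 0 < (t + δ)⁻¹ := by positivity
    have := Q_hom hd ((t + δ)⁻¹ : ℝ) r (y + δ * Complex.I) (t + δ : ℝ)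
    rw [h1 r hr, mul_zero, ← Complex.ofReal_mul, inv_mul_cancel₀ (by positivity),
      Complex.ofReal_one, Q_one] at this
    refine hs _ _ ?_ ?_ this
    · rw [Complex.im_ofReal_mul]
      positivity
    · rw [Complex.im_ofReal_mul]
      simp only [Complex.add_im, Complex.im_ofReal_mul, Complex.I_im]
      positivity
  intro h
  simp only [Complex.ofReal_zero, zero_mul, add_zero, h, norm_zero] at this
  exact absurd this (not_le.2 (by positivity))

lemma Q_real (hd : ∀ m ∈ p.support, m 0 + m 1 ≤ n) (hc : p.coeff (.single 0 n) ≠ 0)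
    (hs : ∀ x y : ℂ, 0 < x.im → 0 < y.im → MvPolynomial.eval ![x, y] p ≠ 0)
    (hp : ∀ m ∈ p.support, Even (n - (m 0 + m 1))) (x : ℂ) (y t : ℝ) (h : Q n p x y t = 0) :
    x.im = 0 := by
  have ev : ∀ x y t, Q n p x y (-t) = Q n p x y t := fun x y t =>
    sum_congr rfl fun m hm => by rw [(hp m hm).neg_pow]
  have k : ∀ (x : ℂ) (y t : ℝ), 0 < x.im → Q n p x y t ≠ 0 := fun x y t hx => by
    rcases le_total 0 t with ht | ht
    · exact Q_ge hd hc hs hx (by simp) ht
    · rw [← ev, ← Complex.ofReal_neg]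
      exact Q_ge hd hc hs hx (by simp) (neg_nonneg.2 ht)
  rcases lt_trichotomy x.im 0 with e | e | e
  · refine absurd ?_ (k (-x) (-y) (-t) (by simpa using e))
    simpa [h] using Q_hom hd (-1) x y t
  · exact e
  · exact absurd h (k x y t e)

lemma coeff_real (hd : ∀ m ∈ p.support, m 0 + m 1 ≤ n) (hc : p.coeff (.single 0 n) ≠ 0)
    (h : ∀ (x : ℂ) (y t : ℝ), Q n p x y t = 0 → x.im = 0) (m : Fin 2 →₀ ℕ) :
    (p.coeff m / p.coeff (.single 0 n)).im = 0 := by
  set c := p.coeff (.single 0 n)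
  have : MvPolynomial.map (starRingEnd ℂ) (MvPolynomial.C c⁻¹ * p) = MvPolynomial.C c⁻¹ * p := by
    refine MvPolynomial.funext_set (fun _ => Set.range Complex.ofReal)
      (fun _ => Set.infinite_range_of_injective Complex.ofReal_injective) fun v hv => ?_
    obtain ⟨x, hx⟩ := hv 0 trivial
    obtain ⟨y, hy⟩ := hv 1 trivial
    obtain rfl : v = ![(x : ℂ), y] := by
      ext i
      fin_cases i
      exacts [hx.symm, hy.symm]
    have e : (starRingEnd ℂ) ∘ ![(x : ℂ), y] = ![(x : ℂ), y] := by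
      ext i
      fin_cases i <;> simp
    conv_lhs => rw [← e, ← MvPolynomial.map_eval]
    obtain ⟨s, -, h1, h2⟩ := Q_prod hd hc y (1 : ℝ)
    rw [Complex.conj_eq_iff_im, map_mul, MvPolynomial.eval_C, ← Q_one (n := n),
      ← Complex.ofReal_one, h2, inv_mul_cancel_left₀ hc]
    refine Multiset.prod_induction (fun z : ℂ => z.im = 0) _ (fun a b ha hb => by simp [ha, hb]) rfl ?_
    simpa using fun r hr => h r _ _ (h1 r hr)
  have := congrArg (MvPolynomial.coeff m) this
  rw [MvPolynomial.coeff_map, MvPolynomial.coeff_C_mul, Complex.conj_eq_iff_im] at this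
  rw [div_eq_inv_mul, this]

theorem rep (hd : ∀ m ∈ p.support, m 0 + m 1 ≤ n) (hc : p.coeff (.single 0 n) ≠ 0)
    (hp : ∀ m ∈ p.support, Even (n - (m 0 + m 1)))
    (h : ∀ (x : ℂ) (y t : ℝ), Q n p x y t = 0 → x.im = 0) :
    ∃ S A, Rep n (fun τ x => Q n p x 1 τ / p.coeff (.single 0 n)) S A := by
  set c := p.coeff (.single 0 n) with hC
  let r : (Fin 2 →₀ ℕ) → ℝ := fun m => (p.coeff m / c * Complex.I ^ (n - (m 0 + m 1))).re
  have hr : ∀ m ∈ p.support, (r m : ℂ) = p.coeff m / c * Complex.I ^ (n - (m 0 + m 1)) ∧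
      (r m : ℂ) * Complex.I ^ (n - (m 0 + m 1)) = p.coeff m / c := fun m hm => by
    obtain ⟨k, hk⟩ := hp m hm
    have e : Complex.I ^ (n - (m 0 + m 1)) = ((-1) ^ k : ℝ) := by
      rw [hk, ← two_mul, pow_mul, Complex.I_sq]
      simp
    have : (r m : ℂ) = p.coeff m / c * Complex.I ^ (n - (m 0 + m 1)) := by
      refine Complex.ext rfl ?_
      rw [e, Complex.ofReal_im, Complex.im_mul_ofReal, coeff_real hd hc h, zero_mul]
    refine ⟨this, ?_⟩
    rw [this, e, mul_assoc, ← Complex.ofReal_mul, ← mul_pow]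
    simp
  let F := pl p fun m => monomial (n - (m 0 + m 1)) (r m)
  have t := pl_top hd hc fun m => monomial (n - (m 0 + m 1)) (r m)
  have t1 : F.coeff n = 1 := t.2.trans (by simp [r, ← hC, div_self hc])
  have e1 : ∀ (τ : ℝ) x, (F.map (ev τ)).eval x = Q n p x 1 τ / c := fun τ x => by
    rw [pl_map, pl_eval, Q, sum_div]
    refine sum_congr rfl fun m hm => ?_
    rw [ev_apply, aeval_monomial, mul_pow, Complex.coe_algebraMap]
    linear_combination x ^ m 0 * τ ^ (n - (m 0 + m 1)) * (hr m hm).2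
  have := nonstrict F (pl p fun m => if m 1 = 0 then r m else 0)
    (monic_of_natDegree_le_of_coeff_eq_one n t.1 t1)
    (natDegree_eq_of_le_of_coeff_ne_zero t.1 (t1 ▸ one_ne_zero)) ?_ (fun k => ?_)
    (fun τ z hz => h z 1 τ (by simpa [e1, hc] using hz)) fun z hz => h z 0 1 ?_
  · simpa only [e1] using this
  · rw [pl_map]
    refine sum_congr rfl fun m hm => ?_
    simp [← C_mul_X_pow_eq_monomial, (hp m hm).neg_pow]
  · simp only [F, pl, finsetSum_coeff, coeff_monomial, mul_sum]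
    refine ⟨natDegree_sum_le_of_forall_le _ _ fun m hm => ?_, sum_congr rfl fun m hm => ?_⟩
    all_goals
      have := hd m hm
      by_cases e : m 0 = k
    · rw [if_pos e, X_pow_mul_monomial]
      exact (natDegree_monomial_le _).trans (by omega)
    · simp [e]
    · rw [if_pos e, if_pos e, X_pow_mul_monomial, coeff_monomial]
      exact if_congr (by omega) rfl rfl
    · simp [e]
  · rw [eval_comp, pl_map, pl_eval] at hz
    have : Complex.I ^ n * Q n p z (0 : ℝ) (1 : ℝ) / c = 0 := by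
      rw [← hz, Q, mul_sum, sum_div]
      refine sum_congr rfl fun m hm => ?_
      split_ifs with e
      · obtain ⟨l, rfl⟩ := Nat.exists_eq_add_of_le (hd m hm)
        rw [Complex.coe_algebraMap, (hr m hm).1]
        simp [e]
        ring
      · simp [e]
    simpa [hc] using this

theorem main (hn : p.totalDegree = n)
    (hs : ∀ x y : ℂ, 0 < x.im → 0 < y.im → MvPolynomial.eval ![x, y] p ≠ 0)
    (hp : ∀ m ∈ p.support, m 0 + m 1 ≡ n [MOD 2])
    (h1 : MvPolynomial.eval ![1, 0] (MvPolynomial.homogeneousComponent n p) ≠ 0)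
    (h2 : MvPolynomial.eval ![0, 1] (MvPolynomial.homogeneousComponent n p) ≠ 0) :
    ∃ (A B : Matrix (Fin n) (Fin n) ℝ) (c : ℂ), Aᵀ = -A ∧ B.PosDef ∧ c ≠ 0 ∧
      ∀ (x : ℂ) (y : ℝ), 0 < y → MvPolynomial.eval ![x, y] p = c * (of fun i j =>
        (A i j : ℂ) + Complex.I * (x * ((1 : Matrix _ _ ℝ) i j : ℝ) + y * B i j)).det := by
  have hd : ∀ m ∈ p.support, m 0 + m 1 ≤ n := fun m hm => by
    have := MvPolynomial.le_totalDegree hm
    rwa [hn, Finsupp.sum_fintype _ _ fun _ => rfl, Fin.sum_univ_two] at this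
  have hc : p.coeff (.single 0 n) ≠ 0 := by rwa [← Q_c hd, Q_zero hd]
  have hp' : ∀ m ∈ p.support, Even (n - (m 0 + m 1)) := fun m hm =>
    even_iff_two_dvd.2 ((Nat.modEq_iff_dvd' (hd m hm)).1 (hp m hm))
  obtain ⟨S, A, hS, hA, h⟩ := rep hd hc hp' (Q_real hd hc hs hp')
  set c := p.coeff (.single 0 n)
  have hB : (-S).IsHermitian := IsHermitian.neg hS
  refine ⟨A, -S, c / Complex.I ^ n, hA, hB.posDef_iff_eigenvalues_pos.2 fun a => ?_,
    div_ne_zero hc (pow_ne_zero _ Complex.I_ne_zero), fun x y hy => ?_⟩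
  · set μ := hB.eigenvalues a
    have e : (scalar (Fin n) μ - -S).det = 0 := by
      rw [← eval_charpoly, hB.charpoly_eq, eval_prod]
      exact prod_eq_zero (mem_univ a) (by simp [μ])
    have e2 := h 0 (-μ)
    have : scalar (Fin n) (-μ : ℂ) - (S.map Complex.ofReal + ((0 : ℝ) * Complex.I : ℂ) •
        A.map Complex.ofReal) = -Complex.ofRealHom.mapMatrix (scalar (Fin n) μ - -S) := by
      ext i j
      by_cases e : i = j <;> simp [e]
      ring
    rw [this, det_neg, ← RingHom.map_det, e, map_zero, mul_zero, div_eq_zero_iff] at e2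
    have e3 := e2.resolve_right hc
    rcases lt_trichotomy μ 0 with l | l | l
    · refine absurd ?_ (Q_ge hd hc hs (x := Complex.I * -μ) (y := Complex.I * 1) (t := 0)
        (by simpa using l) (by simp) le_rfl)
      simpa [-mul_one, -mul_neg, show Q n p (-μ) 1 0 = 0 from e3] using
        Q_hom hd Complex.I (-μ) 1 0
    · rw [l, Complex.ofReal_zero, neg_zero, Q_zero hd] at e3
      exact absurd e3 h2
    · exact l
  have y0 : (y : ℂ) ≠ 0 := Complex.ofReal_ne_zero.2 hy.ne'
  have e := Q_hom hd y (x / y) 1 (y⁻¹ : ℝ)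
  rw [mul_div_cancel₀ _ y0, mul_one, Complex.ofReal_inv, mul_inv_cancel₀ y0, Q_one,
    ← Complex.ofReal_inv] at e
  have : (of fun i j => (A i j : ℂ) + Complex.I * (x * ((1 : Matrix _ _ ℝ) i j : ℝ) +
      y * (-S) i j)) = (Complex.I * y) • (scalar (Fin n) (x / y) - (S.map Complex.ofReal +
      ((y⁻¹ : ℝ) * Complex.I : ℂ) • A.map Complex.ofReal)) := by
    ext i j
    by_cases e : i = j <;> simp [e] <;> field_simp
    all_goals linear_combination (A _ _ : ℂ) * Complex.I_sq
  rw [this, det_smul, ← h, e, Fintype.card_fin, mul_pow]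
  field_simp

end Pool.Agent.H.MP_ca7272_al
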